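import Pool.Agent.TH444.ML.WrG

/-!
# The fixed field of a point stabilizer in an extension with group `A ≀ S_n`
-/

set_option autoImplicit false

open IntermediateField
open Pool.Agent.H391R2 (Wr wr_mul_left wr_mul_right)

namespace Pool.Agent.R70.MA

section

variable {A : Type} [Group A] {n : ℕ}

/-- The elements of `A ≀ S_n` which fix the point `z`. -/
def St (A : Type) [Group A] (n : ℕ) (z : Fin n) : Subgroup (Wr A n) where
  carrier := {x | x.right z = z}
  mul_mem' := by
    intro a b ha hb
    change (a * b).right z = z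
    rw [wr_mul_right, Equiv.Perm.mul_apply]
    have h1 : b.right z = z := hb
    have h2 : a.right z = z := ha
    rw [h1, h2]
  one_mem' := rfl
  inv_mem' := by
    intro a ha
    change (a⁻¹).right z = z
    rw [SemidirectProduct.inv_right]
    have h2 : a.right z = z := ha
    exact Equiv.Perm.inv_eq_iff_eq.2 h2.symm

theorem mem_St {z : Fin n} {x : Wr A n} : x ∈ St A n z ↔ x.right z = z := Iff.rfl

/-- The value at the fixed point. -/
def val (A : Type) [Group A] (n : ℕ) (z : Fin n) : St A n z →* A where
  toFun x := x.1.left z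
  map_one' := rfl
  map_mul' := by
    intro a b
    change (a.1 * b.1).left z = _
    rw [wr_mul_left]
    have h2 : a.1.right z = z := a.2
    have h3 : a.1.right⁻¹ z = z := Equiv.Perm.inv_eq_iff_eq.2 h2.symm
    rw [h3]

theorem val_surj (z : Fin n) : Function.Surjective (val A n z) := by
  intro a
  exact ⟨⟨SemidirectProduct.inl (fun _ => a), rfl⟩, rfl⟩

/-- the action on the points -/
@[reducible] def act (A : Type) [Group A] (n : ℕ) : MulAction (Wr A n) (Fin n) where
  smul x i := x.right i
  one_smul i := rfl
  mul_smul x y i := by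
    change (x * y).right i = x.right (y.right i)
    rw [wr_mul_right, Equiv.Perm.mul_apply]

theorem St_index (z : Fin n) : (St A n z).index = n := by
  classical
  let _ := act A n
  have htr : MulAction.IsPretransitive (Wr A n) (Fin n) := by
    refine ⟨fun x y => ⟨SemidirectProduct.inr (Equiv.swap x y), ?_⟩⟩
    change (SemidirectProduct.inr (Equiv.swap x y) : Wr A n).right x = y
    rw [SemidirectProduct.right_inr, Equiv.swap_apply_left]
  have h1 : St A n z = MulAction.stabilizer (Wr A n) z := by
    ext s
    rw [mem_St, MulAction.mem_stabilizer_iff]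
    rfl
  rw [h1, MulAction.index_stabilizer_of_transitive, Nat.card_eq_fintype_card, Fintype.card_fin]

theorem St_max (z : Fin n) (T : Subgroup (Wr A n)) (hT : St A n z ≤ T) :
    T = St A n z ∨ T = ⊤ := by
  classical
  by_cases h : T ≤ St A n z
  · exact Or.inl (le_antisymm h hT)
  · right
    obtain ⟨t, ht, htz⟩ := SetLike.not_le_iff_exists.1 h
    rw [mem_St] at htz
    rw [eq_top_iff]
    intro w _
    by_cases hw : w.right z = z
    · exact hT hw
    · have h1 : (SemidirectProduct.inr (Equiv.swap (t.right z) (w.right z)) : Wr A n) ∈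
          St A n z := by
        rw [mem_St, SemidirectProduct.right_inr]
        exact Equiv.swap_apply_of_ne_of_ne (Ne.symm htz) (Ne.symm hw)
      set s : Wr A n := SemidirectProduct.inr (Equiv.swap (t.right z) (w.right z)) with hs
      have h2 : (s * t)⁻¹ * w ∈ St A n z := by
        rw [mem_St, wr_mul_right, SemidirectProduct.inv_right, Equiv.Perm.mul_apply,
          Equiv.Perm.inv_eq_iff_eq, wr_mul_right, Equiv.Perm.mul_apply, hs,
          SemidirectProduct.right_inr, Equiv.swap_apply_left]
      have h3 : s * t ∈ T := T.mul_mem (hT h1) ht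
      have h4 := T.mul_mem h3 (hT h2)
      rwa [mul_inv_cancel_left] at h4

end

section

variable {A : Type} [Group A] {n : ℕ} {k₀ M : Type} [Field k₀] [Field M] [Algebra k₀ M]
  (e : (M ≃ₐ[k₀] M) ≃* Wr A n) (z : Fin n)

/-- the fixed field of the stabilizer of a point -/
def kk : IntermediateField k₀ M := fixedField ((St A n z).comap e.toMonoidHom)

theorem fix_kk [FiniteDimensional k₀ M] :
    (kk e z).fixingSubgroup = (St A n z).comap e.toMonoidHom :=
  IntermediateField.fixingSubgroup_fixedField _

theorem finrank_kk [FiniteDimensional k₀ M] [IsGalois k₀ M] :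
    Module.finrank k₀ (kk e z) = n := by
  rw [finrank_eq_fixingSubgroup_index, fix_kk,
    Subgroup.index_comap_of_surjective _ e.surjective, St_index]

theorem prim [FiniteDimensional k₀ M] [IsGalois k₀ M] (E : IntermediateField k₀ (kk e z)) :
    E = ⊥ ∨ E = ⊤ := by
  have h1 : (St A n z).comap e.toMonoidHom ≤ (lift E).fixingSubgroup := by
    rw [← fix_kk e z]
    exact fixingSubgroup_le (lift_le E)
  have h2 : St A n z ≤ (lift E).fixingSubgroup.map e.toMonoidHom := by
    intro x hx
    obtain ⟨y, rfl⟩ := e.surjective x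
    exact ⟨y, h1 hx, rfl⟩
  have h3 : ((lift E).fixingSubgroup.map e.toMonoidHom).comap e.toMonoidHom =
      (lift E).fixingSubgroup := Subgroup.comap_map_eq_self_of_injective e.injective _
  rcases St_max z _ h2 with h4 | h4
  · right
    rw [h4, ← fix_kk e z] at h3
    have h5 : lift E = kk e z := by
      rw [← IsGalois.fixedField_fixingSubgroup (lift E), ← h3,
        IsGalois.fixedField_fixingSubgroup]
    exact lift_injective _ (by rw [h5, lift_top])
  · left
    rw [h4, Subgroup.comap_top] at h3
    have h5 : lift E = ⊥ := by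
      rw [← IsGalois.fixedField_fixingSubgroup (lift E), ← h3, ← IntermediateField.fixingSubgroup_bot,
        IsGalois.fixedField_fixingSubgroup]
    exact lift_injective _ (by rw [h5, lift_bot])

/-- A homomorphism of the Galois group onto `H` gives an extension with group `H`. -/
theorem quot_field {K L H : Type} [Field K] [Field L] [Algebra K L] [FiniteDimensional K L]
    [IsGalois K L] [Group H] (χ : (L ≃ₐ[K] L) →* H) (hχ : Function.Surjective χ) :
    ∃ E : IntermediateField K L, IsGalois K E ∧ Nonempty ((E ≃ₐ[K] E) ≃* H) := by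
  exact ⟨fixedField χ.ker, IsGalois.of_fixedField_normal_subgroup χ.ker,
    ⟨(IsGalois.normalAutEquivQuotient χ.ker).symm.trans
      (QuotientGroup.quotientKerEquivOfSurjective χ hχ)⟩⟩

theorem gal_nonempty_of (K Ω : Type) [Field K] [Field Ω] [Algebra K Ω] [IsAlgClosure K Ω]
    (E H : Type) [Field E] [Algebra K E] [FiniteDimensional K E] [IsGalois K E] [Group H]
    (e : (E ≃ₐ[K] E) ≃* H) : (Pool.Agent.TH444.ML.Gal K Ω H).Nonempty := by
  have hac : IsAlgClosed Ω := IsAlgClosure.isAlgClosed K
  let j : E →ₐ[K] Ω := IsAlgClosed.lift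
  let ε : E ≃ₐ[K] j.fieldRange := AlgEquiv.ofInjectiveField j
  refine ⟨j.fieldRange, ?_, ?_, ?_⟩
  · exact Module.Finite.equiv ε.toLinearEquiv
  · exact IsGalois.of_algEquiv ε
  · exact ⟨(AlgEquiv.autCongr ε).symm.trans e⟩

/-- Over the fixed field of a point stabilizer all quotients of `A` are Galois groups. -/
theorem gal_kk [FiniteDimensional k₀ M] [IsGalois k₀ M] (Ω : Type) [Field Ω]
    [Algebra (kk e z) Ω] [IsAlgClosure (kk e z) Ω] {H : Type} [Group H] (ψ : A →* H)
    (hψ : Function.Surjective ψ) : (Pool.Agent.TH444.ML.Gal (kk e z) Ω H).Nonempty := by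
  let f1 : (M ≃ₐ[kk e z] M) ≃* (kk e z).fixingSubgroup := (fixingSubgroupEquiv (kk e z)).symm
  let f2 : (kk e z).fixingSubgroup →* St A n z :=
    { toFun := fun s => ⟨e s.1, by
        have h : s.1 ∈ (St A n z).comap e.toMonoidHom := by
          rw [← fix_kk e z]
          exact s.2
        exact h⟩
      map_one' := by
        apply Subtype.ext
        exact map_one e
      map_mul' := by
        intro a b
        apply Subtype.ext
        exact map_mul e a.1 b.1 }
  have hf2 : Function.Surjective f2 := by
    intro x
    refine ⟨⟨e.symm x.1, ?_⟩, ?_⟩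
    · rw [fix_kk e z]
      change e (e.symm x.1) ∈ St A n z
      rw [MulEquiv.apply_symm_apply]
      exact x.2
    · apply Subtype.ext
      exact e.apply_symm_apply x.1
  let χ : (M ≃ₐ[kk e z] M) →* H := ((ψ.comp (val A n z)).comp f2).comp f1.toMonoidHom
  have hχ : Function.Surjective χ :=
    ((hψ.comp (val_surj z)).comp hf2).comp f1.surjective
  obtain ⟨E, hE, ⟨g⟩⟩ := quot_field χ hχ
  exact gal_nonempty_of (kk e z) Ω E H g

end

end Pool.Agent.R70.MA
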