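import Pool.Agent.R367.IG.RealN
import Pool.Agent.TH444.ML.Done
import Pool.Agent.R70.MA.Base

/-!
# The norm-one subgroup of `A ≀ S_n` over all number fields
-/

set_option autoImplicit false

open Pool.Agent.H391R2 (Wr wr_mul_left wr_mul_right)

namespace Pool.Agent.R70.MA

/-- The elements `(f, σ)` of `A ≀ S_n` with `∏ [f i] = 1` in the abelianization of `A`. -/
def NW (A : Type) [Group A] (n : ℕ) : Subgroup (Wr A n) where
  carrier := {x | ∏ i, Abelianization.of (x.left i) = 1}
  mul_mem' := by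
    intro a b ha hb
    change ∏ i, Abelianization.of ((a * b).left i) = 1
    have ha' : ∏ i, Abelianization.of (a.left i) = 1 := ha
    have hb' : ∏ i, Abelianization.of (b.left i) = 1 := hb
    simp only [wr_mul_left, map_mul]
    rw [Finset.prod_mul_distrib, ha', one_mul]
    rw [← hb']
    exact Equiv.prod_comp a.right⁻¹ (fun i => Abelianization.of (b.left i))
  one_mem' := by
    change ∏ i : Fin n, Abelianization.of ((1 : Wr A n).left i) = 1
    exact Finset.prod_eq_one (fun i _ => map_one _)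
  inv_mem' := by
    intro a ha
    change ∏ i, Abelianization.of ((a⁻¹).left i) = 1
    have ha' : ∏ i, Abelianization.of (a.left i) = 1 := ha
    have h1 : ∀ i, (a⁻¹).left i = (a.left (a.right i))⁻¹ := by
      intro i
      have h2 : (a * a⁻¹).left (a.right i) = 1 := by rw [mul_inv_cancel]; rfl
      rw [wr_mul_left, show a.right⁻¹ (a.right i) = i from a.right.symm_apply_apply i] at h2
      exact eq_inv_of_mul_eq_one_right h2
    simp only [h1, map_inv]
    rw [Finset.prod_inv_distrib, inv_eq_one, ← ha']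
    exact Equiv.prod_comp a.right (fun i => Abelianization.of (a.left i))

theorem mem_NW {A : Type} [Group A] {n : ℕ} {x : Wr A n} :
    x ∈ NW A n ↔ ∏ i, Abelianization.of (x.left i) = 1 := Iff.rfl

/-- permutations -/
def permHom (A : Type) [Group A] (n : ℕ) : Equiv.Perm (Fin n) →* NW A n where
  toFun σ := ⟨SemidirectProduct.inr σ, by
    rw [mem_NW]
    exact Finset.prod_eq_one (fun i _ => map_one _)⟩
  map_one' := rfl
  map_mul' a b := by
    apply Subtype.ext
    exact map_mul _ a b

theorem permHom_inj (A : Type) [Group A] (n : ℕ) : Function.Injective (permHom A n) := by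
  intro a b h
  have h1 := congrArg (fun x : NW A n => x.1.right) h
  exact h1

theorem card_ge (A : Type) [Group A] [Finite A] (n : ℕ) : n.factorial ≤ Nat.card (NW A n) := by
  have : Finite (Wr A n) := Pool.Agent.H391R2.T4.finite_wr A n
  have h := Nat.card_le_card_of_injective _ (permHom_inj A n)
  rwa [Nat.card_eq_fintype_card (α := Equiv.Perm (Fin n)), Fintype.card_perm, Fintype.card_fin] at h

theorem fact_bound (n : ℕ) (hn : 8 ≤ n) : 8 * n ^ 2 * (n ^ 2 + 1) ≤ n.factorial := by
  induction n, hn using Nat.le_induction with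
  | base => decide
  | succ n hn ih =>
    rw [Nat.factorial_succ]
    have h1 : 8 * (n + 1) ^ 2 * ((n + 1) ^ 2 + 1) ≤ (n + 1) * (8 * n ^ 2 * (n ^ 2 + 1)) := by
      have ha : n + 1 ≤ 2 * n := by omega
      have hb : (n + 1) ^ 2 + 1 ≤ 4 * n ^ 2 := by nlinarith
      have h2 : (n + 1) * ((n + 1) ^ 2 + 1) ≤ n ^ 2 * (n ^ 2 + 1) := by
        calc (n + 1) * ((n + 1) ^ 2 + 1) ≤ (2 * n) * (4 * n ^ 2) := Nat.mul_le_mul ha hb
          _ = 8 * n ^ 3 := by ring
          _ ≤ n * n ^ 3 := Nat.mul_le_mul_right _ hn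
          _ = n ^ 2 * n ^ 2 := by ring
          _ ≤ n ^ 2 * (n ^ 2 + 1) := Nat.mul_le_mul_left _ (Nat.le_succ _)
      calc 8 * (n + 1) ^ 2 * ((n + 1) ^ 2 + 1) = 8 * (n + 1) * ((n + 1) * ((n + 1) ^ 2 + 1)) := by
            ring
        _ ≤ 8 * (n + 1) * (n ^ 2 * (n ^ 2 + 1)) := Nat.mul_le_mul_left _ h2
        _ = (n + 1) * (8 * n ^ 2 * (n ^ 2 + 1)) := by ring
    exact h1.trans (Nat.mul_le_mul_left _ ih)

/-- the imprimitive action of the norm-one subgroup -/
@[reducible] def actN (A : Type) [Group A] (n : ℕ) : MulAction (NW A n) (A × Fin n) where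
  smul w x := (w.1.left (w.1.right x.2) * x.1, w.1.right x.2)
  one_smul x := by
    change ((1 : Wr A n).left ((1 : Wr A n).right x.2) * x.1, (1 : Wr A n).right x.2) = x
    simp
  mul_smul v w x := by
    change ((v.1 * w.1).left ((v.1 * w.1).right x.2) * x.1, (v.1 * w.1).right x.2) =
      (v.1.left (v.1.right (w.1.right x.2)) * (w.1.left (w.1.right x.2) * x.1),
        v.1.right (w.1.right x.2))
    rw [wr_mul_left, wr_mul_right]
    simp [Equiv.Perm.mul_apply, mul_assoc]

theorem core (A : Type) [Group A] [Finite A] (n : ℕ) (hn : 2 ≤ n) :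
    ∃ U : Subgroup (NW A n), U.normalCore = ⊥ ∧ U.index = Nat.card A * n := by
  classical
  let _ := actN A n
  let i₀ : Fin n := ⟨0, by omega⟩
  have hdef : ∀ (w : NW A n) (x : A × Fin n),
      w • x = (w.1.left (w.1.right x.2) * x.1, w.1.right x.2) := fun _ _ => rfl
  have htr0 : ∀ (a : A) (i : Fin n), ∃ w : NW A n, w • ((1 : A), i₀) = (a, i) := by
    intro a i
    obtain ⟨j, hj⟩ : ∃ j : Fin n, j ≠ i := by
      by_cases h : i = ⟨0, by omega⟩
      · exact ⟨⟨1, by omega⟩, by rw [h]; intro h2; simpa using congrArg Fin.val h2⟩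
      · exact ⟨⟨0, by omega⟩, Ne.symm h⟩
    let f : Fin n → A := Function.update (Function.update (fun _ => 1) j a⁻¹) i a
    have hf : ∏ l, Abelianization.of (f l) = 1 := by
      rw [Finset.prod_eq_mul i j hj.symm]
      · have e1 : f i = a := Function.update_self _ _ _
        have e2 : f j = a⁻¹ := by
          simp only [f]
          rw [Function.update_of_ne hj, Function.update_self]
        rw [e1, e2, map_inv, mul_inv_cancel]
      · intro l _ hl
        have e3 : f l = 1 := by
          simp only [f]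
          rw [Function.update_of_ne hl.1, Function.update_of_ne hl.2]
        rw [e3, map_one]
      · intro h; exact absurd (Finset.mem_univ _) h
      · intro h; exact absurd (Finset.mem_univ _) h
    refine ⟨⟨⟨f, Equiv.swap i₀ i⟩, hf⟩, ?_⟩
    rw [hdef]
    simp only [Equiv.swap_apply_left, mul_one]
    exact Prod.ext (Function.update_self _ _ _) rfl
  have htr : MulAction.IsPretransitive (NW A n) (A × Fin n) := by
    refine ⟨fun x y => ?_⟩
    obtain ⟨v, hv⟩ := htr0 x.1 x.2
    obtain ⟨w, hw⟩ := htr0 y.1 y.2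
    have hv' : v • ((1 : A), i₀) = x := hv
    have hw' : w • ((1 : A), i₀) = y := hw
    exact ⟨w * v⁻¹, by rw [← hv', mul_smul, inv_smul_smul, hw']⟩
  refine ⟨MulAction.stabilizer (NW A n) ((1 : A), i₀), ?_, ?_⟩
  · rw [eq_bot_iff]
    intro x hx
    have hfix : ∀ y : A × Fin n, x • y = y := by
      intro y
      obtain ⟨w, hw0⟩ := htr0 y.1 y.2
      have hw : w • ((1 : A), i₀) = y := hw0
      rw [← hw]
      have h1 : w⁻¹ * x * w ∈ MulAction.stabilizer (NW A n) ((1 : A), i₀) := by
        have := hx w⁻¹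
        simpa using this
      rw [MulAction.mem_stabilizer_iff, mul_smul, mul_smul, inv_smul_eq_iff] at h1
      exact h1
    rw [Subgroup.mem_bot]
    have hr : ∀ i, x.1.right i = i := by
      intro i
      have := congrArg (fun z : A × Fin n => z.2) (hfix (1, i))
      simpa [hdef] using this
    apply Subtype.ext
    apply SemidirectProduct.ext
    · funext i
      have := congrArg (fun z : A × Fin n => z.1) (hfix (1, i))
      simp only [hdef, hr, mul_one] at this
      exact this
    · exact Equiv.ext hr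
  · rw [MulAction.index_stabilizer_of_transitive, Nat.card_prod, Nat.card_eq_fintype_card (α := Fin n),
      Fintype.card_fin]

theorem big (A : Type) [Group A] [Finite A] (n : ℕ)
    (hn : ((3 * Nat.card A + 2).factorial) ^ 3 ≤ n) : Nat.card A ≤ n ∧ 8 ≤ n := by
  have h1 : 1 ≤ Nat.card A := Nat.card_pos
  have h2 := Nat.self_le_factorial (3 * Nat.card A + 2)
  have h3 : (3 * Nat.card A + 2).factorial ≤ (3 * Nat.card A + 2).factorial ^ 3 :=
    Nat.le_self_pow (by omega) _
  have h4 : (5 : ℕ).factorial ≤ (3 * Nat.card A + 2).factorial := Nat.factorial_le (by omega)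
  have h5 : (5 : ℕ).factorial = 120 := rfl
  constructor <;> omega

section

open Pool.Agent.R367.IG Pool.Agent.H391R2.T4

variable {Γ A : Type} [Group Γ] [Group A] (φ : Γ →* MulAut A) (n : ℕ)

/-- the norm-one subgroup of the wreath product as a subgroup of the semidirect product -/
def jn : NW A n →* NO φ n where
  toFun x := ⟨⟨x.1, 1⟩, x.2⟩
  map_one' := rfl
  map_mul' a b := by
    apply Subtype.ext
    apply SemidirectProduct.ext
    · change (a * b).1 = a.1 * wrAct φ n 1 b.1
      rw [map_one]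
      rfl
    · change (1 : Γ) = 1 * 1
      rw [mul_one]

theorem jn_inj : Function.Injective (jn φ n) := by
  intro a b h
  have h1 := congrArg (fun x : NO φ n => x.1.left) h
  exact Subtype.ext h1

/-- the projection onto `Γ` -/
def pr : NO φ n →* Γ := (SemidirectProduct.rightHom : EG φ n →* Γ).comp (NO φ n).subtype

theorem pr_surj : Function.Surjective (pr φ n) := by
  intro ρ
  refine ⟨⟨⟨1, ρ⟩, ?_⟩, rfl⟩
  rw [mem_NO]
  exact Finset.prod_eq_one (fun i _ => map_one _)

theorem range_jn : (jn φ n).range = (pr φ n).ker := by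
  ext x
  rw [MonoidHom.mem_range, MonoidHom.mem_ker]
  constructor
  · rintro ⟨y, rfl⟩
    rfl
  · intro h
    have h' : x.1.right = 1 := h
    refine ⟨⟨x.1.left, x.2⟩, ?_⟩
    apply Subtype.ext
    apply SemidirectProduct.ext
    · rfl
    · exact h'.symm

theorem core_no [Finite Γ] [Finite A] (hn : 2 ≤ n) :
    ∃ U : Subgroup (NO φ n), U.normalCore = ⊥ ∧ U.index = Nat.card A * n * Nat.card Γ := by
  obtain ⟨U, hU, hi⟩ := core A n hn
  refine ⟨U.map (jn φ n), ?_, ?_⟩
  · rw [eq_bot_iff]
    intro y hy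
    obtain ⟨x, hx, rfl⟩ := (Subgroup.normalCore_le _) hy
    have hx' : x ∈ U.normalCore := by
      intro w
      have h1 := hy (jn φ n w)
      rw [← map_mul, ← map_inv, ← map_mul] at h1
      obtain ⟨v, hv, hvw⟩ := h1
      rw [← jn_inj φ n hvw]
      exact hv
    rw [hU, Subgroup.mem_bot] at hx'
    rw [hx', map_one]
    exact Subgroup.one_mem _
  · rw [Subgroup.index_map_of_injective _ (jn_inj φ n), hi, range_jn, Subgroup.index_ker,
      MonoidHom.range_eq_top.2 (pr_surj φ n), Subgroup.card_top]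

theorem card_no [Finite Γ] [Finite A] : n.factorial ≤ Nat.card (NO φ n) := by
  have : Finite (Wr A n) := finite_wr A n
  have h1 : Finite (EG φ n) := Finite.of_equiv (Wr A n × Γ) SemidirectProduct.equivProd.symm
  exact (card_ge A n).trans (Nat.card_le_card_of_injective _ (jn_inj φ n))

theorem small [Finite Γ] [Finite A]
    (hn : ((3 * (Nat.card A * Nat.card Γ) + 2).factorial) ^ 3 ≤ n) :
    ∃ U : Subgroup (NO φ n), U.normalCore = ⊥ ∧ 8 * U.index * (U.index + 1) ≤ Nat.card (NO φ n) := by
  have h1 : 1 ≤ Nat.card A * Nat.card Γ := Nat.mul_pos Nat.card_pos Nat.card_pos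
  have h2 := Nat.self_le_factorial (3 * (Nat.card A * Nat.card Γ) + 2)
  have h3 : (3 * (Nat.card A * Nat.card Γ) + 2).factorial ≤
      (3 * (Nat.card A * Nat.card Γ) + 2).factorial ^ 3 := Nat.le_self_pow (by omega) _
  have h4 : (5 : ℕ).factorial ≤ (3 * (Nat.card A * Nat.card Γ) + 2).factorial :=
    Nat.factorial_le (by omega)
  have h5 : (5 : ℕ).factorial = 120 := rfl
  have h6 : Nat.card A * Nat.card Γ ≤ n := by omega
  have h7 : 8 ≤ n := by omega
  obtain ⟨U, hU, hi⟩ := core_no φ n (by omega)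
  refine ⟨U, hU, ?_⟩
  have h8 : U.index ≤ n ^ 2 := by
    rw [hi]
    calc Nat.card A * n * Nat.card Γ = Nat.card A * Nat.card Γ * n := by ring
      _ ≤ n * n := Nat.mul_le_mul_right _ h6
      _ = n ^ 2 := by ring
  calc 8 * U.index * (U.index + 1) ≤ 8 * n ^ 2 * (n ^ 2 + 1) :=
        Nat.mul_le_mul (Nat.mul_le_mul_left _ h8) (Nat.add_le_add_right h8 1)
    _ ≤ n.factorial := fact_bound n h7
    _ ≤ Nat.card (NO φ n) := card_no φ n

theorem finite_no [Finite Γ] [Finite A] : Finite (NO φ n) := by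
  have : Finite (Wr A n) := finite_wr A n
  have h1 : Finite (EG φ n) := Finite.of_equiv (Wr A n × Γ) SemidirectProduct.equivProd.symm
  infer_instance

theorem bound_mono [Finite Γ] [Finite A]
    (hn : ((3 * (Nat.card A * Nat.card Γ) + 2).factorial) ^ 3 ≤ n) :
    ((3 * Nat.card A + 2).factorial) ^ 3 ≤ n := by
  refine le_trans (Nat.pow_le_pow_left (Nat.factorial_le ?_) 3) hn
  have h1 : 1 ≤ Nat.card Γ := Nat.card_pos
  nlinarith [Nat.card_pos (α := A)]

theorem gal_of_real (K : Type) [Field K] (H : Type) [Group H] [Finite H]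
    (h : Nfff32c05.IsRealizable K H) :
    (Pool.Agent.TH444.ML.Gal K (AlgebraicClosure K) H).Nonempty := by
  obtain ⟨⟨⟨L, i1, i2, i3, e⟩⟩⟩ := h
  have hfin : Finite (L ≃ₐ[K] L) := Finite.of_equiv H e.toEquiv
  have hfd : FiniteDimensional K L := Pool.Agent.TH444.ML.fd_of_finite_aut K L
  exact gal_nonempty_of K (AlgebraicClosure K) L H e.symm

theorem gal_no (K : Type) [Field K] [NumberField K] [Finite Γ] [Finite A]
    (hΓ : Nfff32c05.IsRealizable K Γ)
    (hn : ((3 * Nat.card A + 2).factorial) ^ 3 ≤ n) :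
    (Pool.Agent.TH444.ML.Gal K (AlgebraicClosure K) (NO φ n)).Nonempty := by
  have h1 : Finite (NO φ n) := finite_no φ n
  exact gal_of_real K (NO φ n) (real_no K (hilb_numberField K) Γ hΓ A φ n hn)

end

end Pool.Agent.R70.MA

namespace Pool.Agent.R70.MA

open Pool.Agent.R367.IG Pool.Agent.H391R2.T4

theorem real_unit (K : Type) [Field K] : Nfff32c05.IsRealizable K Unit := by
  have hs : Subsingleton (K ≃ₐ[K] K) := ⟨fun a b => by
    ext x
    have h1 := a.commutes x
    have h2 := b.commutes x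
    exact h1.trans h2.symm⟩
  exact ⟨⟨⟨K, inferInstance, inferInstance, inferInstance,
    { toFun := fun _ => 1
      invFun := fun _ => ()
      left_inv := fun _ => rfl
      right_inv := fun _ => Subsingleton.elim _ _
      map_mul' := fun _ _ => Subsingleton.elim _ _ }⟩⟩⟩

theorem finite_nw (A : Type) [Group A] [Finite A] (n : ℕ) : Finite (NW A n) := by
  have : Finite (Wr A n) := finite_wr A n
  infer_instance

/-- The norm-one subgroup is a Galois group over every number field. -/
theorem gal_nw (K : Type) [Field K] [NumberField K] (A : Type) [Group A] [Finite A] (n : ℕ)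
    (hn : ((3 * Nat.card A + 2).factorial) ^ 3 ≤ n) :
    (Pool.Agent.TH444.ML.Gal K (AlgebraicClosure K) (NW A n)).Nonempty := by
  have hfin : Finite (NW A n) := finite_nw A n
  obtain ⟨⟨⟨L, i1, i2, i3, e⟩⟩⟩ :=
    real_no K (hilb_numberField K) Unit (real_unit K) A (1 : Unit →* MulAut A) n hn
  let j : NW A n ≃* NO (1 : Unit →* MulAut A) n := MulEquiv.ofBijective (jn 1 n) ⟨jn_inj 1 n, by
    intro x
    refine ⟨⟨x.1.left, x.2⟩, ?_⟩
    apply Subtype.ext
    apply SemidirectProduct.ext
    · rfl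
    · rfl⟩
  exact gal_of_real K (NW A n) ⟨⟨⟨L, i1, i2, i3, j.trans e⟩⟩⟩

theorem small_nw (A : Type) [Group A] [Finite A] (n : ℕ)
    (hn : ((3 * Nat.card A + 2).factorial) ^ 3 ≤ n) :
    ∃ U : Subgroup (NW A n), U.normalCore = ⊥ ∧ 8 * U.index * (U.index + 1) ≤ Nat.card (NW A n) := by
  obtain ⟨h6, h7⟩ := big A n hn
  obtain ⟨U, hU, hi⟩ := core A n (by omega)
  refine ⟨U, hU, ?_⟩
  have h8 : U.index ≤ n ^ 2 := by
    rw [hi]
    calc Nat.card A * n ≤ n * n := Nat.mul_le_mul_right _ h6
      _ = n ^ 2 := by ring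
  calc 8 * U.index * (U.index + 1) ≤ 8 * n ^ 2 * (n ^ 2 + 1) :=
        Nat.mul_le_mul (Nat.mul_le_mul_left _ h8) (Nat.add_le_add_right h8 1)
    _ ≤ n.factorial := fact_bound n h7
    _ ≤ Nat.card (NW A n) := card_ge A n

theorem two_le_card {H : Type} [Group H] [Finite H] {U : Subgroup H}
    (hc : 8 * U.index * (U.index + 1) ≤ Nat.card H) : 2 ≤ Nat.card H := by
  have h4 : 1 ≤ U.index := Nat.one_le_iff_ne_zero.2 Subgroup.index_ne_zero_of_finite
  nlinarith

end Pool.Agent.R70.MA
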