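import Pool.Agent.TH444.ML.Done
import Pool.Agent.R70.MA.Base

/-!
# Number fields of every large degree over which all small groups are Galois groups
-/

set_option autoImplicit false

open IntermediateField
open Pool.Agent.H391R2 (Wr)

namespace Pool.Agent.R70.MA

/-- The product of all subgroups of `S_B`. -/
def AB (B : ℕ) : Type := ∀ P : Subgroup (Equiv.Perm (Fin B)), P

instance (B : ℕ) : Group (AB B) :=
  inferInstanceAs (Group (∀ P : Subgroup (Equiv.Perm (Fin B)), P))

instance (B : ℕ) : Finite (AB B) :=
  inferInstanceAs (Finite (∀ P : Subgroup (Equiv.Perm (Fin B)), P))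

/-- Every group of order at most `B` is a quotient of `AB B`. -/
theorem AB_quot (B : ℕ) (H : Type) [Group H] [Finite H] (hH : Nat.card H ≤ B) :
    ∃ ψ : AB B →* H, Function.Surjective ψ := by
  classical
  have : Fintype H := Fintype.ofFinite H
  have h1 : Fintype.card H ≤ Fintype.card (Fin B) := by
    rw [Fintype.card_fin, ← Nat.card_eq_fintype_card]
    exact hH
  obtain ⟨ι⟩ := Function.Embedding.nonempty_of_card_le h1
  let f : H →* Equiv.Perm (Fin B) :=
    (Equiv.Perm.viaEmbeddingHom ι).comp (MulAction.toPermHom H H)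
  have hf : Function.Injective f :=
    (Equiv.Perm.viaEmbeddingHom_injective ι).comp MulAction.toPerm_injective
  let g : H ≃* f.range := MonoidHom.ofInjective hf
  refine ⟨g.symm.toMonoidHom.comp (Pi.evalMonoidHom (fun P : Subgroup (Equiv.Perm (Fin B)) => P)
    f.range), ?_⟩
  exact g.symm.surjective.comp (Function.surjective_eval (f.range))

/-- For every `n` large in terms of `B`, every number field has a primitive extension `k` of degree
`n` such that all groups of order at most `B` are Galois groups over `k`. -/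
theorem exists_field (B n : ℕ) (hn : ((3 * Nat.card (AB B) + 2).factorial) ^ 3 ≤ n)
    (k₀ : Type) [Field k₀] [NumberField k₀] :
    ∃ (k : Type) (_ : Field k) (_ : NumberField k) (_ : Algebra k₀ k),
      Module.finrank k₀ k = n ∧ (∀ E : IntermediateField k₀ k, E = ⊥ ∨ E = ⊤) ∧
      ∀ (H : Type) [Group H] [Finite H], Nat.card H ≤ B →
        (Pool.Agent.TH444.ML.Gal k (AlgebraicClosure k) H).Nonempty := by
  obtain ⟨-, -, M, hM1, hM2, ⟨e⟩⟩ := Pool.Agent.TH444.ML.wr_data k₀ (AB B) n hn
  have hpos : 0 < n := lt_of_lt_of_le (by positivity) hn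
  let z : Fin n := ⟨0, hpos⟩
  refine ⟨kk e z, inferInstance, NumberField.of_module_finite k₀ (kk e z), inferInstance,
    finrank_kk e z, prim e z, ?_⟩
  intro H _ _ hH
  obtain ⟨ψ, hψ⟩ := AB_quot B H hH
  exact gal_kk e z (AlgebraicClosure (kk e z)) ψ hψ

end Pool.Agent.R70.MA
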